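import Pool.Agent.H6.MS.Defs

namespace Pool.Agent.H6.MS

open Finset

private lemma avg_aux {α : Type*} [Fintype α] (c : α → ℝ) (C n : ℝ) (hn : (Fintype.card α : ℝ) = n)
    (hpos : 0 < n) (h : ∑ a, c a ≤ C * n) : ∃ a, c a ≤ C := by
  by_contra hcon
  push Not at hcon
  have hne : (univ : Finset α).Nonempty := by
    rw [Finset.univ_nonempty_iff, ← Fintype.card_pos_iff]
    have : (0 : ℝ) < (Fintype.card α : ℝ) := by rw [hn]; exact hpos
    exact_mod_cast this
  have h2 : ∑ _a : α, C < ∑ a, c a := Finset.sum_lt_sum_of_nonempty hne (fun a _ => hcon a)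
  rw [Finset.sum_const, Finset.card_univ, nsmul_eq_mul, hn] at h2
  linarith [mul_comm C n]

theorem exact_blr {H : Type*} [AddCommGroup H] {N : ℕ} [NeZero N] (R : ZMod N → H) (ε : ℝ)
    (hε : ε < 1 / 8)
    (h : (Nat.card {t : ZMod N × ZMod N × ZMod N //
        R t.1 - R (t.1 + t.2.1) - R (t.1 + t.2.2) + R (t.1 + t.2.1 + t.2.2) ≠ 0} : ℝ)
        ≤ ε * (N : ℝ) ^ 3) :
    ∃ (lam : ZMod N →+ H) (κ : H),
      (Nat.card {y : ZMod N // R y ≠ κ + lam y} : ℝ) ≤ 4 * ε * N := by
  classical
  have hN : (0 : ℝ) < N := by exact_mod_cast Nat.pos_of_ne_zero (NeZero.ne N)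
  have hcardA : (Fintype.card (ZMod N) : ℝ) = N := by rw [ZMod.card]
  rw [Nat.card_eq_fintype_card, Fintype.card_subtype] at h
  -- eps nonneg
  have hε0 : 0 ≤ ε := by
    by_contra hneg
    push Not at hneg
    have h1 : ε * (N : ℝ) ^ 3 < 0 := mul_neg_of_neg_of_pos hneg (by positivity)
    have h2 : (0 : ℝ) ≤ ((univ.filter (fun t : ZMod N × ZMod N × ZMod N =>
        R t.1 - R (t.1 + t.2.1) - R (t.1 + t.2.2) + R (t.1 + t.2.1 + t.2.2) ≠ 0)).card : ℝ) :=
      Nat.cast_nonneg _
    linarith
  -- step 1
  have hstep1 : ∃ a : ZMod N, ((univ.filter (fun t : ZMod N × ZMod N =>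
      R a - R (a + t.1) - R (a + t.2) + R (a + t.1 + t.2) ≠ 0)).card : ℝ) ≤ ε * (N : ℝ) ^ 2 := by
    apply avg_aux (fun a : ZMod N => ((univ.filter (fun t : ZMod N × ZMod N =>
      R a - R (a + t.1) - R (a + t.2) + R (a + t.1 + t.2) ≠ 0)).card : ℝ)) (ε * (N : ℝ) ^ 2) N
      hcardA hN
    have heq : (univ.filter (fun t : ZMod N × ZMod N × ZMod N =>
        R t.1 - R (t.1 + t.2.1) - R (t.1 + t.2.2) + R (t.1 + t.2.1 + t.2.2) ≠ 0)).card
        = ∑ a : ZMod N, (univ.filter (fun t : ZMod N × ZMod N =>
          R a - R (a + t.1) - R (a + t.2) + R (a + t.1 + t.2) ≠ 0)).card := by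
      simp only [Finset.card_filter]
      rw [Fintype.sum_prod_type]
    have h' := h
    rw [heq] at h'
    push_cast at h'
    calc _ ≤ ε * (N : ℝ) ^ 3 := h'
      _ = ε * (N : ℝ) ^ 2 * N := by ring
  obtain ⟨a, ha⟩ := hstep1
  set S : ZMod N → H := fun x => R (a + x) - R a with hS
  set E : Finset (ZMod N × ZMod N) := univ.filter (fun t => S (t.1 + t.2) ≠ S t.1 + S t.2) with hE
  have hEcard : (E.card : ℝ) ≤ ε * (N : ℝ) ^ 2 := by
    have : E = univ.filter (fun t : ZMod N × ZMod N =>
      R a - R (a + t.1) - R (a + t.2) + R (a + t.1 + t.2) ≠ 0) := by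
      ext t
      simp only [hE, hS, mem_filter, mem_univ, true_and, ne_eq, not_iff_not]
      rw [← add_assoc]
      constructor
      · intro hh
        have : R (a + t.1 + t.2) = (R (a + t.1) - R a + (R (a + t.2) - R a)) + R a := by
          rw [← hh]; abel
        rw [this]; abel
      · intro hh
        have : R (a + t.1 + t.2) = R (a + t.1) + R (a + t.2) - R a := by
          have h3 : R (a + t.1 + t.2) = (R a - R (a + t.1) - R (a + t.2) + R (a + t.1 + t.2))
            + (R (a + t.1) + R (a + t.2) - R a) := by abel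
          rw [hh, zero_add] at h3
          exact h3
        rw [this]; abel
    rw [this]; exact ha
  -- step 3
  have hstep3 : ∀ x : ZMod N, ∃ k' : ZMod N,
      ((univ.filter (fun k : ZMod N => S (x + k) - S k ≠ S (x + k') - S k')).card : ℝ)
        ≤ 2 * ε * N := by
    intro x
    have hb : ((univ.filter (fun t : ZMod N × ZMod N =>
        S (x + t.2) - S t.2 ≠ S (x + t.1) - S t.1)).card : ℝ) ≤ 2 * ε * N * N := by
      have hsub : univ.filter (fun t : ZMod N × ZMod N =>
          S (x + t.2) - S t.2 ≠ S (x + t.1) - S t.1) ⊆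
          (univ.filter (fun t : ZMod N × ZMod N => (x + t.2, t.1) ∈ E)) ∪
          (univ.filter (fun t : ZMod N × ZMod N => (t.2, x + t.1) ∈ E)) := by
        intro t ht
        simp only [mem_filter, mem_univ, true_and, mem_union] at ht ⊢
        by_contra hcon
        push Not at hcon
        obtain ⟨h1, h2⟩ := hcon
        simp only [hE, mem_filter, mem_univ, true_and, ne_eq, not_not] at h1 h2
        apply ht
        have h3 : x + t.2 + t.1 = t.2 + (x + t.1) := by ring
        rw [h3, h2] at h1
        rw [sub_eq_sub_iff_add_eq_add, ← h1, add_comm]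
      have c1 : (univ.filter (fun t : ZMod N × ZMod N => (x + t.2, t.1) ∈ E)).card ≤ E.card := by
        apply Finset.card_le_card_of_injOn (fun t => (x + t.2, t.1))
        · intro t ht
          simpa using ht
        · intro t _ t' _ htt
          simp only [Prod.mk.injEq, add_right_inj] at htt
          exact Prod.ext htt.2 htt.1
      have c2 : (univ.filter (fun t : ZMod N × ZMod N => (t.2, x + t.1) ∈ E)).card ≤ E.card := by
        apply Finset.card_le_card_of_injOn (fun t => (t.2, x + t.1))
        · intro t ht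
          simpa using ht
        · intro t _ t' _ htt
          simp only [Prod.mk.injEq, add_right_inj] at htt
          exact Prod.ext htt.2 htt.1
      have c3 := (Finset.card_le_card hsub).trans (Finset.card_union_le _ _)
      have c4 : (univ.filter (fun t : ZMod N × ZMod N =>
          S (x + t.2) - S t.2 ≠ S (x + t.1) - S t.1)).card ≤ 2 * E.card := by omega
      have c5 : ((univ.filter (fun t : ZMod N × ZMod N =>
          S (x + t.2) - S t.2 ≠ S (x + t.1) - S t.1)).card : ℝ) ≤ 2 * (E.card : ℝ) := by
        exact_mod_cast c4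
      nlinarith
    apply avg_aux (fun k' : ZMod N => ((univ.filter (fun k : ZMod N =>
      S (x + k) - S k ≠ S (x + k') - S k')).card : ℝ)) (2 * ε * N) N hcardA hN
    have heq : (univ.filter (fun t : ZMod N × ZMod N =>
          S (x + t.2) - S t.2 ≠ S (x + t.1) - S t.1)).card
        = ∑ k' : ZMod N, (univ.filter (fun k : ZMod N =>
          S (x + k) - S k ≠ S (x + k') - S k')).card := by
      simp only [Finset.card_filter]
      rw [Fintype.sum_prod_type]
    rw [heq] at hb
    push_cast at hb
    exact hb
  choose g hg using hstep3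
  -- the map lam
  set L : ZMod N → H := fun x => S (x + g x) - S (g x) with hL
  set B : ZMod N → Finset (ZMod N) := fun x => univ.filter (fun k => S (x + k) - S k ≠ L x) with hB
  have hBcard : ∀ x, ((B x).card : ℝ) ≤ 2 * ε * N := fun x => hg x
  have hnot : ∀ x k, k ∉ B x → S (x + k) - S k = L x := by
    intro x k hk
    by_contra hne
    exact hk (by simp [hB, hne])
  have hadd : ∀ x y, L (x + y) = L x + L y := by
    intro x y
    have hex : ∃ k : ZMod N, (y + k) ∉ B x ∧ k ∉ B y ∧ k ∉ B (x + y) := by
      by_contra hcon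
      push Not at hcon
      have hsub : (univ : Finset (ZMod N)) ⊆
          (univ.filter (fun k => y + k ∈ B x)) ∪ (B y ∪ B (x + y)) := by
        intro k _
        simp only [mem_union, mem_filter, mem_univ, true_and]
        by_cases h1 : y + k ∈ B x
        · exact Or.inl h1
        · by_cases h2 : k ∈ B y
          · exact Or.inr (Or.inl h2)
          · exact Or.inr (Or.inr (hcon k h1 h2))
      have c0 : (univ.filter (fun k => y + k ∈ B x)).card ≤ (B x).card := by
        apply Finset.card_le_card_of_injOn (fun k => y + k)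
        · intro t ht
          simpa using ht
        · intro t _ t' _ htt
          simpa using htt
      have c1 := (Finset.card_le_card hsub).trans (Finset.card_union_le _ _)
      have c2 := Finset.card_union_le (B y) (B (x + y))
      have c3 : N ≤ (B x).card + ((B y).card + (B (x + y)).card) := by
        have : (univ : Finset (ZMod N)).card = N := by rw [Finset.card_univ, ZMod.card]
        omega
      have c4 : (N : ℝ) ≤ ((B x).card : ℝ) + (((B y).card : ℝ) + ((B (x + y)).card : ℝ)) := by
        exact_mod_cast c3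
      have e1 := hBcard x
      have e2 := hBcard y
      have e3 := hBcard (x + y)
      nlinarith
    obtain ⟨k, h1, h2, h3⟩ := hex
    rw [← hnot x (y + k) h1, ← hnot y k h2, ← hnot (x + y) k h3, ← add_assoc]
    abel
  let lam : ZMod N →+ H := AddMonoidHom.mk' L hadd
  have hlam : ∀ x, lam x = L x := fun x => rfl
  -- step 5
  set Z : Finset (ZMod N) := univ.filter (fun x => S x ≠ L x) with hZ
  have hZcard : (Z.card : ℝ) ≤ 4 * ε * N := by
    have hrow : ∀ x ∈ Z, (3 / 4 : ℝ) * N ≤
        ((univ.filter (fun k : ZMod N => (x, k) ∈ E)).card : ℝ) := by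
      intro x hx
      have hxZ : S x ≠ L x := by simpa [hZ] using hx
      have hsub : (univ : Finset (ZMod N)) ⊆ B x ∪ univ.filter (fun k : ZMod N => (x, k) ∈ E) := by
        intro k _
        simp only [mem_union, mem_filter, mem_univ, true_and]
        by_cases h1 : k ∈ B x
        · exact Or.inl h1
        · right
          have h2 := hnot x k h1
          simp only [hE, mem_filter, mem_univ, true_and, ne_eq]
          intro h3
          apply hxZ
          rw [← h2, h3]; abel
      have c1 := (Finset.card_le_card hsub).trans (Finset.card_union_le _ _)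
      have c3 : N ≤ (B x).card + (univ.filter (fun k : ZMod N => (x, k) ∈ E)).card := by
        have : (univ : Finset (ZMod N)).card = N := by rw [Finset.card_univ, ZMod.card]
        omega
      have c4 : (N : ℝ) ≤ ((B x).card : ℝ) +
          ((univ.filter (fun k : ZMod N => (x, k) ∈ E)).card : ℝ) := by exact_mod_cast c3
      have e1 := hBcard x
      nlinarith
    have hsum : ∑ x ∈ Z, ((univ.filter (fun k : ZMod N => (x, k) ∈ E)).card : ℝ) ≤ (E.card : ℝ) := by
      have h1 : ∑ x ∈ Z, (univ.filter (fun k : ZMod N => (x, k) ∈ E)).card ≤ E.card := by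
        calc ∑ x ∈ Z, (univ.filter (fun k : ZMod N => (x, k) ∈ E)).card
            ≤ ∑ x : ZMod N, (univ.filter (fun k : ZMod N => (x, k) ∈ E)).card :=
              Finset.sum_le_sum_of_subset (Finset.subset_univ _)
          _ = E.card := by
              simp only [Finset.card_filter]
              rw [← Fintype.sum_prod_type (f := fun t : ZMod N × ZMod N => if t ∈ E then 1 else 0)]
              rw [← Finset.card_filter]
              congr 1
              ext t
              simp
      exact_mod_cast h1
    have hsum2 : (Z.card : ℝ) * ((3 / 4 : ℝ) * N) ≤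
        ∑ x ∈ Z, ((univ.filter (fun k : ZMod N => (x, k) ∈ E)).card : ℝ) := by
      rw [← nsmul_eq_mul]
      exact Finset.card_nsmul_le_sum Z _ _ hrow
    have hZ1 : (Z.card : ℝ) * ((3 / 4 : ℝ) * N) ≤ ε * (N : ℝ) ^ 2 := by linarith
    have hZ2 : ((Z.card : ℝ) * (3 / 4 : ℝ)) * N ≤ (ε * N) * N := by nlinarith
    have hZ3 : (Z.card : ℝ) * (3 / 4 : ℝ) ≤ ε * N := le_of_mul_le_mul_right hZ2 hN
    have hεN : 0 ≤ ε * N := mul_nonneg hε0 hN.le
    linarith
  refine ⟨lam, R a - lam a, ?_⟩
  rw [Nat.card_eq_fintype_card, Fintype.card_subtype]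
  have hle : (univ.filter (fun y : ZMod N => R y ≠ R a - lam a + lam y)).card ≤ Z.card := by
    apply Finset.card_le_card_of_injOn (fun y => y - a)
    · intro y hy
      simp only [coe_filter, mem_univ, true_and, Set.mem_setOf_eq] at hy
      simp only [hZ, coe_filter, mem_univ, true_and, Set.mem_setOf_eq]
      intro h1
      apply hy
      have h2 : L (y - a) = lam y - lam a := by rw [← hlam, map_sub]
      rw [h2] at h1
      simp only [hS, add_sub_cancel] at h1
      have h3 : R y = (R y - R a) + R a := by abel
      rw [h3, h1]; abel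
    · intro t _ t' _ htt
      simpa using htt
  have : ((univ.filter (fun y : ZMod N => R y ≠ R a - lam a + lam y)).card : ℝ) ≤ (Z.card : ℝ) := by
    exact_mod_cast hle
  linarith

end Pool.Agent.H6.MS
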